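import Mathlib
import Pool.Agent.H22.Lev4

set_option autoImplicit false
open MeasureTheory ProbabilityTheory Set Filter Topology
open scoped NNReal
open Pool.Agent.H22.Hunt Pool.Agent.H22.Lev

namespace Pool.Agent.Results.MP_ee1e43_pr.Counter

theorem result : ∃ (Ω : Type) (_ : MeasurableSpace Ω) (P : Measure Ω) (_ : IsProbabilityMeasure P)
    (X : ℝ≥0 → Ω → ℝ) (μ : Measure ℝ) (b : ℝ), IsLevy P X ∧
    μ {0} = 0 ∧ ∫⁻ x, ENNReal.ofReal (min 1 (x ^ 2)) ∂μ < ⊤ ∧
    (∀ (t : ℝ≥0) (θ : ℝ), ∫ ω, Complex.exp (θ * X t ω * Complex.I) ∂P =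
      Complex.exp (t * (θ * b * Complex.I + ∫ x : ℝ, (Complex.exp (θ * x * Complex.I) - 1 -
        if |x| ≤ 1 then θ * x * Complex.I else 0) ∂μ))) ∧
    ∫⁻ x, ENNReal.ofReal (min 1 |x|) ∂μ = ⊤ ∧ ¬ HuntH P X := by
  have hy : ∀ i, |yW i| ≤ 1 := fun i => (yW_abs i).trans_le (xx_le _ _)
  refine ⟨Om, inferInstance, PP cc, inferInstance, Z yW dW, mu yW, ∑' i, (yW i * cc i - dW i),
    levy okW, mu_null _ (measurableSet_singleton _) fun i h => ?_, ?_, fun t θ => ?_, ?_,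
    nhW _ (.of_forall fun _ _ => rfl)⟩
  · exact (abs_pos.1 ((xx_pos _ _).trans_eq (yW_abs i).symm)) h
  · rw [mu_lint]
    refine Summable.tsum_ofReal_lt_top ((sq_summ okW).congr fun i => ?_)
    rw [min_eq_right ((sq_le_one_iff_abs_le_one _).2 (hy i))]
  · have h1 := one okW 0 t zero_le (θ * Complex.I) (by simp) (by simp)
    simp only [Z_zero, sub_zero, NNReal.coe_zero] at h1
    simp only [mul_right_comm (θ : ℂ) _ Complex.I]
    rw [h1, mu, integral_sum_dirac (by simp), Complex.ofReal_tsum, ← tsum_mul_left]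
    simp only [hy, if_true, ENNReal.coe_toReal, Complex.real_smul]
    rw [← (Ψ_summ2 okW _).tsum_add (Ψ_summ1 okW _), Ψ]
    congr 3 with i
    push_cast
    ring
  · rw [mu_lint]
    refine top_of fun i => ENNReal.one_le_ofReal.2 ?_
    rw [min_eq_right (hy i), yW_abs, mul_comm]
    linarith [mul_le_mul_of_nonneg_left (cc_le i).1 (xx_pos 11 i.1).le, xQ i.1, Q_two i.1]

end Pool.Agent.Results.MP_ee1e43_pr.Counter
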